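import Mathlib
import Pool.Agent.H7.Veto

set_option autoImplicit false

namespace Pool.Agent.Results.MP_2fc053_co.Unbounded

open Pool.Agent.H7.Veto

theorem result : ∀ k : ℕ, 2 ≤ k →
    ∃ (V : Type) (_ : Fintype V) (G : SimpleGraph V), VI G ∧ G.chromaticNumber = k := by
  intro k hk
  obtain ⟨k, rfl⟩ : ∃ j, k = j + 2 := ⟨k - 2, by omega⟩
  exact exists_chi k

end Pool.Agent.Results.MP_2fc053_co.Unbounded
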